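import Pool.Agent.helper7.PQ.Spec

set_option autoImplicit false

namespace Pool.Agent.PQ

theorem SQD : SQD_stmt := by
  intro ν K j p B hν hB hj
  set w : ℕ := ν ^ (K - j) with hw
  have hw0 : 0 < w := Nat.pow_pos hν
  have hwν : w ^ 2 * (ν ^ (2 * j) * p) = ν ^ (2 * K) * p := by
    rw [hw, ← mul_assoc, ← pow_mul, ← pow_add]
    congr 2
    omega
  set s : ℕ := Nat.sqrt (ν ^ (2 * K) * p / B) with hs
  have h1 : s ^ 2 * B ≤ ν ^ (2 * K) * p := (Nat.le_div_iff_mul_le hB).1 (Nat.sqrt_le' _)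
  have h2 : ν ^ (2 * K) * p < (s + 1) ^ 2 * B := (Nat.div_lt_iff_lt_mul hB).1 (Nat.lt_succ_sqrt' _)
  have h3 : w * (s / w) ≤ s := Nat.mul_div_le s w
  have h4 : s + 1 ≤ w * (s / w + 1) := Nat.lt_mul_div_succ s hw0
  symm
  rw [Nat.eq_sqrt']
  constructor
  · rw [Nat.le_div_iff_mul_le hB]
    have h5 : w ^ 2 * ((s / w) ^ 2 * B) ≤ w ^ 2 * (ν ^ (2 * j) * p) := by
      rw [hwν]
      refine le_trans ?_ h1
      rw [← mul_assoc, ← mul_pow]
      exact Nat.mul_le_mul_right B (Nat.pow_le_pow_left h3 2)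
    exact Nat.le_of_mul_le_mul_left h5 (Nat.pow_pos hw0)
  · rw [Nat.div_lt_iff_lt_mul hB]
    have h5 : w ^ 2 * (ν ^ (2 * j) * p) < w ^ 2 * ((s / w + 1) ^ 2 * B) := by
      rw [hwν]
      refine lt_of_lt_of_le h2 ?_
      rw [← mul_assoc, ← mul_pow]
      exact Nat.mul_le_mul_right B (Nat.pow_le_pow_left h4 2)
    exact Nat.lt_of_mul_lt_mul_left h5

end Pool.Agent.PQ
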